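import Pool.Agent.H99.Sp.Cnt
import Pool.Agent.H7.Heil.Tools
import Pool.Agent.H98.GL.Comm

/-!
Products: counting for powers of a commutative group; descent to quotients; averaging over a
central subgroup.
-/

open Finset

namespace Pool.Agent.H99.Sp

open Pool.Agent.H7.HB Pool.Agent.H98.GL

section prod

variable {n : ℕ} {A : Type} [CommGroup A]

/-- product character -/
def pc (b : Fin n → (A →* ℂˣ)) : (Fin n → A) →* ℂˣ :=
  ∏ k, (b k).comp (Pi.evalMonoidHom (fun _ : Fin n => A) k)

theorem pc_apply (b : Fin n → (A →* ℂˣ)) (e : Fin n → A) : pc b e = ∏ k, b k (e k) := by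
  unfold pc
  rw [MonoidHom.finsetProd_apply]
  rfl

theorem pc_single (b : Fin n → (A →* ℂˣ)) (k : Fin n) (x : A) :
    pc b (Pi.mulSingle k x) = b k x := by
  classical
  rw [pc_apply, Finset.prod_eq_single k]
  · rw [Pi.mulSingle_eq_same]
  · intro j _ hj
    rw [Pi.mulSingle_eq_of_ne hj, map_one]
  · simp

theorem pc_inj : Function.Injective (pc : (Fin n → (A →* ℂˣ)) → _) := by
  intro b b' h
  funext k
  refine MonoidHom.ext fun x => ?_
  rw [← pc_single b k x, ← pc_single b' k x, h]

theorem pc_surj (κ : (Fin n → A) →* ℂˣ) :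
    pc (fun k => κ.comp (MonoidHom.mulSingle (fun _ : Fin n => A) k)) = κ := by
  classical
  apply MonoidHom.functions_ext
  intro k x
  rw [pc_single]
  rfl

/-- permutation of the coordinates -/
def permM {M : Type} [Monoid M] (π : Equiv.Perm (Fin n)) : (Fin n → M) →* (Fin n → M) where
  toFun e := e ∘ π
  map_one' := rfl
  map_mul' _ _ := rfl

/-- powers of a commutative group: small-degree functions are trivial on the factors -/
theorem prod_triv [Fintype A] {G : Type} [Group G] {θ : G → ℂ} (hθ : Heil θ) (φ : (Fin n → A) →* G)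
    (hperm : ∀ (π : Equiv.Perm (Fin n)) e, θ (φ (e ∘ π)) = θ (φ e))
    (σ : A →* A) (hσb : Function.Bijective σ)
    (hσ : ∀ k e, θ (φ (Function.update e k (σ (e k)))) = θ (φ e))
    (P : (A →* ℂˣ) → Prop) (hP : ∀ b, P b → P (b.comp σ) ∧ b.comp σ ≠ b)
    (x : A) (hx : ∀ b : A →* ℂˣ, b x ≠ 1 → P b)
    {r : ℕ} (hr : θ 1 = r) (hlt : r < 2 * n) (k : Fin n) : θ (φ (Pi.mulSingle k x)) = θ 1 := by
  classical
  by_contra hne
  obtain ⟨κ, hκ, hκx⟩ := exists_char_of_ne hθ φ hne
  obtain ⟨ι, _, f, hf, hM, hcard⟩ := pattern_count (n := n) (S := A →* ℂˣ)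
    (fun b => mult hθ φ (pc b) ≠ 0) P (fun b => b.comp σ) hP
    (by
      intro π b hb
      have h1 : pc (b ∘ π) = (pc b).comp (permM π.symm) := by
        refine MonoidHom.ext fun e => ?_
        rw [pc_apply, MonoidHom.comp_apply, pc_apply]
        rw [← Equiv.prod_comp π (fun j => b j _)]
        refine Finset.prod_congr rfl fun j _ => ?_
        change _ = b (π j) (e (π.symm (π j)))
        rw [Equiv.symm_apply_apply]
        rfl
      rw [h1, mult_comp_eq hθ φ (pc b)]
      · exact hb
      · rw [← Finite.injective_iff_bijective]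
        intro e e' hee
        funext j
        have h2 := congrFun hee (π j)
        change e (π.symm (π j)) = e' (π.symm (π j)) at h2
        rwa [Equiv.symm_apply_apply] at h2
      · intro e
        exact hperm π.symm e)
    (by
      intro b k hb
      have hone : ∀ (e : Fin n → A), (Function.update e k (σ (e k))) =
          (MonoidHom.piMap (fun j => if j = k then σ else MonoidHom.id A)) e := by
        intro e
        funext j
        by_cases hj : j = k
        · subst hj
          simp
        · simp [hj]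
      have h1 : pc (Function.update b k ((b k).comp σ)) = (pc b).comp
          (MonoidHom.piMap (fun j => if j = k then σ else MonoidHom.id A)) := by
        refine MonoidHom.ext fun e => ?_
        rw [pc_apply, MonoidHom.comp_apply, pc_apply]
        refine Finset.prod_congr rfl fun j _ => ?_
        by_cases hj : j = k
        · subst hj
          simp
        · simp [hj]
      rw [h1, mult_comp_eq hθ φ (pc b)]
      · exact hb
      · rw [← Finite.injective_iff_bijective]
        intro e e' hee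
        funext j
        have h2 := congrFun hee j
        by_cases hj : j = k
        · subst hj
          simp only [MonoidHom.piMap_apply, if_true] at h2
          exact hσb.1 h2
        · simpa [hj] using h2
      · intro e
        rw [← hone]
        exact hσ k e)
    (fun k => κ.comp (MonoidHom.mulSingle (fun _ : Fin n => A) k))
    (by rw [pc_surj]; exact hκ) ⟨k, hx _ hκx⟩
  have h2 := card_le_of_inj hθ φ hr (fun i => pc (f i)) (fun i j h => hf (pc_inj h)) hM
  omega

end prod

section quot

variable {G H : Type} [Group G] [Group H]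

/-- descent of Heilbronn functions along surjections -/
theorem heil_quot [Finite G] {θ : G → ℂ} (hθ : Heil θ) (f : G →* H)
    (hf : Function.Surjective f) {θ' : H → ℂ} (h : ∀ g, θ' (f g) = θ g) : Heil θ' where
  conj g x := by
    obtain ⟨g, rfl⟩ := hf g
    obtain ⟨x, rfl⟩ := hf x
    rw [← map_inv, ← map_mul, ← map_mul, h, h, hθ.conj]
  coeff K _ _ φ ψ := by
    classical
    let R : Subgroup (K × G) := {
      carrier := {p | φ p.1 = f p.2}
      mul_mem' := by
        intro a b ha hb
        change φ (a.1 * b.1) = f (a.2 * b.2)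
        rw [map_mul, map_mul]
        exact congrArg₂ _ ha hb
      one_mem' := by
        change φ 1 = f 1
        rw [map_one, map_one]
      inv_mem' := by
        intro a ha
        change φ a.1⁻¹ = f a.2⁻¹
        rw [map_inv, map_inv]
        exact congrArg _ ha }
    let _ : Fintype R := Fintype.ofFinite R
    let p1 : R →* K := (MonoidHom.fst K G).comp R.subtype
    let p2 : R →* G := (MonoidHom.snd K G).comp R.subtype
    have hp1 : Function.Surjective p1 := by
      intro k
      obtain ⟨g, hg⟩ := hf (φ k)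
      exact ⟨⟨(k, g), hg.symm⟩, rfl⟩
    have hp : ∀ x : R, φ (p1 x) = f (p2 x) := fun x => x.2
    obtain ⟨m, hm⟩ := hθ.coeff R p2 (ψ.comp p1)
    obtain ⟨c, hc1, hc2⟩ := sum_comp_surj p1 hp1
      (fun k => θ' (φ k) * (((ψ k)⁻¹ : ℂˣ) : ℂ))
    refine ⟨m, ?_⟩
    have h1 : ∑ x : R, θ (p2 x) * ((((ψ.comp p1) x)⁻¹ : ℂˣ) : ℂ)
        = ∑ x : R, θ' (φ (p1 x)) * (((ψ (p1 x))⁻¹ : ℂˣ) : ℂ) := by
      refine Finset.sum_congr rfl fun x _ => ?_
      rw [hp, h]
      rfl
    rw [h1, hc2, hc1] at hm
    have hc0 : (c : ℂ) ≠ 0 := by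
      intro h0
      have h0' : c = 0 := by exact_mod_cast h0
      rw [h0', zero_mul] at hc1
      exact absurd hc1 Fintype.card_ne_zero
    have h2 : (c : ℂ) * ∑ k : K, θ' (φ k) * (((ψ k)⁻¹ : ℂˣ) : ℂ)
        = c * ((m : ℂ) * (Fintype.card K : ℂ)) := by
      rw [hm]
      push_cast
      ring
    exact mul_left_cancel₀ hc0 h2

/-- averaging over a commuting subgroup -/
theorem heil_avg {θ : G → ℂ} (hθ : Heil θ) (Z : Type) [Group Z] [Fintype Z] (ζ : Z →* G)
    (γ : H →* G) (hcomm : ∀ z h, ζ z * γ h = γ h * ζ z) :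
    Heil (fun h => (∑ z : Z, θ (ζ z * γ h)) / (Fintype.card Z : ℂ)) where
  conj g x := by
    congr 1
    refine Finset.sum_congr rfl fun z _ => ?_
    rw [← hθ.conj (γ g) (ζ z * γ x)]
    congr 1
    rw [map_mul, map_mul, map_inv, ← mul_assoc, ← mul_assoc, ← mul_assoc, hcomm]
  coeff K _ _ φ ψ := by
    have hc : ∀ z : Z, ∀ k : K, Commute (ζ z) ((γ.comp φ) k) := fun z k => hcomm z (φ k)
    let Φ : Z × K →* G := MonoidHom.noncommCoprod ζ (γ.comp φ) hc
    obtain ⟨m, hm⟩ := hθ.coeff (Z × K) Φ (ψ.comp (MonoidHom.snd Z K))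
    refine ⟨m, ?_⟩
    have hZ : (Fintype.card Z : ℂ) ≠ 0 := by exact_mod_cast Fintype.card_ne_zero
    rw [Fintype.card_prod, Fintype.sum_prod_type, Finset.sum_comm] at hm
    have h1 : ∀ k : K, (∑ z : Z, θ (ζ z * γ (φ k))) / (Fintype.card Z : ℂ) *
        (((ψ k)⁻¹ : ℂˣ) : ℂ) = (∑ z : Z, θ (Φ (z, k)) *
        ((((ψ.comp (MonoidHom.snd Z K)) (z, k))⁻¹ : ℂˣ) : ℂ)) / (Fintype.card Z : ℂ) := by
      intro k
      rw [div_mul_eq_mul_div, Finset.sum_mul]
      rfl
    simp only [h1]
    rw [← Finset.sum_div, hm]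
    push_cast
    field_simp

end quot

section pw

/-- powers of an element of finite order -/
def pw {G : Type} [Group G] (m : ℕ) [NeZero m] (x : G) (hx : x ^ m = 1) :
    Multiplicative (ZMod m) →* G where
  toFun a := x ^ (a.toAdd.val)
  map_one' := by simp
  map_mul' a b := by
    rw [toAdd_mul, ZMod.val_add, ← pow_add]
    conv_rhs => rw [← Nat.div_add_mod (a.toAdd.val + b.toAdd.val) m, pow_add, pow_mul, hx, one_pow,
      one_mul]

theorem pw_inv {G : Type} [Group G] (m : ℕ) [NeZero m] (x : G) (hx : x ^ m = 1)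
    (hx' : x⁻¹ ^ m = 1) (a : Multiplicative (ZMod m)) : pw m x hx a⁻¹ = pw m x⁻¹ hx' a := by
  rw [map_inv]
  change (x ^ _)⁻¹ = (x⁻¹) ^ _
  rw [inv_pow]

theorem pw_conj {G : Type} [Group G] (m : ℕ) [NeZero m] (x t : G) (hx : x ^ m = 1)
    (hx' : (t * x * t⁻¹) ^ m = 1) (a : Multiplicative (ZMod m)) :
    t * pw m x hx a * t⁻¹ = pw m (t * x * t⁻¹) hx' a := by
  change t * x ^ _ * t⁻¹ = (t * x * t⁻¹) ^ _
  rw [conj_pow]

end pw

end Pool.Agent.H99.Sp
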