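import Pool.Agent.H7.Heil.Basic

/-!
Counting constituents of the restriction to a commutative group (three lemmas of helper24's
`Pool.Agent.H24.HL.Count`, repeated here to keep the imports small), and a counting lemma for
patterns.
-/

open Finset

namespace Pool.Agent.H99.Sp

open Pool.Agent.H7.HB

section
variable {G : Type} [Group G] {θ : G → ℂ} {E : Type} [CommGroup E] [Fintype E]

theorem card_le_of_inj (h : Heil θ) (φ : E →* G) {r : ℕ} (hr : θ 1 = r) {ι : Type} [Fintype ι]
    (f : ι → (E →* ℂˣ)) (hinj : Function.Injective f) (hpos : ∀ l, mult h φ (f l) ≠ 0) :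
    Fintype.card ι ≤ r := by
  classical
  have h1 := sum_mult h φ
  rw [hr] at h1
  have h2 : r = ∑ κ' : E →* ℂˣ, mult h φ κ' := by exact_mod_cast h1
  rw [h2]
  calc Fintype.card ι = ∑ l : ι, 1 := by simp
    _ ≤ ∑ l : ι, mult h φ (f l) :=
        Finset.sum_le_sum fun l _ => Nat.one_le_iff_ne_zero.2 (hpos l)
    _ = ∑ κ' ∈ (Finset.univ : Finset ι).image f, mult h φ κ' := by
        rw [Finset.sum_image fun x _ y _ hxy => hinj hxy]
    _ ≤ ∑ κ' : E →* ℂˣ, mult h φ κ' := Finset.sum_le_sum_of_subset (Finset.subset_univ _)

theorem mult_comp_eq (h : Heil θ) (φ : E →* G) (κ : E →* ℂˣ) (ρ : E →* E)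
    (hbij : Function.Bijective ρ) (hθ : ∀ t, θ (φ (ρ t)) = θ (φ t)) :
    mult h φ (κ.comp ρ) = mult h φ κ := by
  have h1 := mult_sum h φ (κ.comp ρ)
  have h2 := mult_sum h φ κ
  have h3 : ∑ a : E, θ (φ a) * ((((κ.comp ρ) a)⁻¹ : ℂˣ) : ℂ)
      = ∑ a : E, θ (φ a) * (((κ a)⁻¹ : ℂˣ) : ℂ) := by
    rw [← hbij.sum_comp (fun a => θ (φ a) * (((κ a)⁻¹ : ℂˣ) : ℂ))]
    refine Finset.sum_congr rfl fun a _ => ?_
    rw [hθ]
    rfl
  rw [h1, h2] at h3
  have hc : (Fintype.card E : ℂ) ≠ 0 := card_ne_zero'
  have h5 := mul_right_cancel₀ hc h3
  exact_mod_cast h5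

theorem exists_char_of_ne (h : Heil θ) (φ : E →* G) {e : E} (hne : θ (φ e) ≠ θ 1) :
    ∃ κ : E →* ℂˣ, mult h φ κ ≠ 0 ∧ κ e ≠ 1 := by
  by_contra hcon
  push Not at hcon
  apply hne
  rw [expand h φ e, sum_mult h φ]
  push_cast
  refine Finset.sum_congr rfl fun κ _ => ?_
  by_cases h0 : mult h φ κ = 0
  · rw [h0]; simp
  · rw [hcon κ h0]; simp

end

/-- Counting patterns: a nonempty set of patterns invariant under permutations of the coordinates
and under a move of a marked coordinate has at least `2n` elements. -/
theorem pattern_count {n : ℕ} {S : Type} (M : (Fin n → S) → Prop) (P : S → Prop) (τ : S → S)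
    (hτ : ∀ s, P s → P (τ s) ∧ τ s ≠ s) (hM1 : ∀ (π : Equiv.Perm (Fin n)) b, M b → M (b ∘ π))
    (hM2 : ∀ b k, M b → M (Function.update b k (τ (b k)))) (a : Fin n → S) (ha : M a)
    (haP : ∃ k, P (a k)) :
    ∃ (ι : Type) (_ : Fintype ι) (f : ι → (Fin n → S)), Function.Injective f ∧
      (∀ i, M (f i)) ∧ 2 * n ≤ Fintype.card ι := by
  classical
  by_cases hall : ∀ k, P (a k)
  · -- all coordinates are marked
    have h1 : ∀ T : Finset (Fin n), M (fun k => if k ∈ T then τ (a k) else a k) := by
      intro T
      induction T using Finset.induction_on with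
      | empty => simpa using ha
      | insert k T hk ih =>
        have h2 := hM2 _ k ih
        convert h2 using 1
        funext j
        by_cases hj : j = k
        · subst hj
          simp [hk]
        · simp [Finset.mem_insert, hj]
    refine ⟨Finset (Fin n), inferInstance, fun T k => if k ∈ T then τ (a k) else a k, ?_, h1, ?_⟩
    · intro T T' hTT
      ext k
      have h2 := congrFun hTT k
      simp only at h2
      by_cases hk : k ∈ T <;> by_cases hk' : k ∈ T' <;> simp [hk, hk'] at h2 ⊢
      · exact (hτ _ (hall k)).2 h2
      · exact (hτ _ (hall k)).2 h2.symm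
    · rw [Fintype.card_finset, Fintype.card_fin]
      obtain ⟨k, -⟩ := haP
      have hn : 1 ≤ n := by
        have := k.2
        omega
      clear h1 hall ha hM1 hM2 k
      induction n, hn using Nat.le_induction with
      | base => norm_num
      | succ m hm ih =>
        have h3 : 2 * m ≤ 2 ^ m := by
          clear * - hm
          induction m, hm using Nat.le_induction with
          | base => norm_num
          | succ m hm ih =>
            rw [pow_succ]
            omega
        rw [pow_succ]
        omega
  · push Not at hall
    obtain ⟨y, hy⟩ := hall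
    obtain ⟨x, hx⟩ := haP
    have hxy : x ≠ y := fun h => hy (h ▸ hx)
    let π : Fin n → Equiv.Perm (Fin n) := fun m =>
      if P (a m) then Equiv.swap m y else if m = y then 1 else Equiv.swap x m
    let b : Fin n → (Fin n → S) := fun m => a ∘ π m
    have hb : ∀ m, M (b m) := fun m => hM1 _ _ ha
    -- marked coordinates of `b m`
    have hmark : ∀ m, ∃ k, P (b m k) := by
      intro m
      refine ⟨(π m).symm x, ?_⟩
      change P (a (π m ((π m).symm x)))
      rw [Equiv.apply_symm_apply]
      exact hx
    choose κ hκ using hmark
    -- the family is injective, already on marks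
    have hinj : ∀ m m', (∀ k, P (b m k) ↔ P (b m' k)) → m = m' := by
      have hval : ∀ m k, b m k = a (π m k) := fun m k => rfl
      have hA : ∀ m, P (a m) → (P (b m y) ∧ ¬P (b m m)) := by
        intro m hm
        have hπ : π m = Equiv.swap m y := if_pos hm
        refine ⟨?_, ?_⟩
        · rw [hval, hπ, Equiv.swap_apply_right]
          exact hm
        · rw [hval, hπ, Equiv.swap_apply_left]
          exact hy
      have hA' : ∀ m, P (a m) → ∀ k, k ≠ m → k ≠ y → (P (b m k) ↔ P (a k)) := by
        intro m hm k h1 h2
        have hπ : π m = Equiv.swap m y := if_pos hm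
        rw [hval, hπ, Equiv.swap_apply_of_ne_of_ne h1 h2]
      have hB : ∀ m, ¬P (a m) → ¬P (b m y) := by
        intro m hm
        by_cases hmy : m = y
        · have hπ : π m = 1 := by
            change (if P (a m) then _ else if m = y then _ else _) = _
            rw [if_neg hm, if_pos hmy]
          rw [hval, hπ]
          exact hy
        · have hπ : π m = Equiv.swap x m := by
            change (if P (a m) then _ else if m = y then _ else _) = _
            rw [if_neg hm, if_neg hmy]
          rw [hval, hπ, Equiv.swap_apply_of_ne_of_ne hxy.symm (Ne.symm hmy)]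
          exact hy
      have hC : ∀ m, ¬P (a m) → m ≠ y → (P (b m m) ∧ ¬P (b m x)) := by
        intro m hm hmy
        have hπ : π m = Equiv.swap x m := by
          change (if P (a m) then _ else if m = y then _ else _) = _
          rw [if_neg hm, if_neg hmy]
        refine ⟨?_, ?_⟩
        · rw [hval, hπ, Equiv.swap_apply_right]
          exact hx
        · rw [hval, hπ, Equiv.swap_apply_left]
          exact hm
      have hC' : ∀ m, ¬P (a m) → m ≠ y → ∀ k, k ≠ m → ¬P (a k) → ¬P (b m k) := by
        intro m hm hmy k hk1 hk2
        have hπ : π m = Equiv.swap x m := by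
          change (if P (a m) then _ else if m = y then _ else _) = _
          rw [if_neg hm, if_neg hmy]
        have hkx : k ≠ x := fun h => hk2 (h ▸ hx)
        rw [hval, hπ, Equiv.swap_apply_of_ne_of_ne hkx hk1]
        exact hk2
      have hD : ∀ m, m = y → ∀ k, b m k = a k := by
        intro m hmy k
        have hπ : π m = 1 := by
          change (if P (a m) then _ else if m = y then _ else _) = _
          rw [if_neg (hmy ▸ hy), if_pos hmy]
        rw [hval, hπ]
        rfl
      intro m m' hmm
      by_cases hm : P (a m)
      · by_cases hm' : P (a m')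
        · by_contra hne
          have h1 := (hA m hm).2
          rw [hmm m] at h1
          have hmy : m ≠ y := fun h => hy (h ▸ hm)
          exact h1 ((hA' m' hm' m hne hmy).2 hm)
        · exact absurd ((hmm y).1 (hA m hm).1) (hB m' hm')
      · by_cases hm' : P (a m')
        · exact absurd ((hmm y).2 (hA m' hm').1) (hB m hm)
        · by_cases hmy : m = y
          · by_cases hmy' : m' = y
            · rw [hmy, hmy']
            · have h1 := (hC m' hm' hmy').2
              rw [← hmm x, hD m hmy x] at h1
              exact absurd hx h1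
          · by_cases hmy' : m' = y
            · have h1 := (hC m hm hmy).2
              rw [hmm x, hD m' hmy' x] at h1
              exact absurd hx h1
            · by_contra hne
              have h1 := (hC m hm hmy).1
              rw [hmm m] at h1
              exact hC' m' hm' hmy' m hne hm h1
    let f : Fin n × Bool → (Fin n → S) := fun p =>
      if p.2 then Function.update (b p.1) (κ p.1) (τ (b p.1 (κ p.1))) else b p.1
    have hfP : ∀ p k, P (f p k) ↔ P (b p.1 k) := by
      rintro ⟨m, e⟩ k
      cases e with
      | false => rfl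
      | true =>
        change P (Function.update (b m) (κ m) (τ (b m (κ m))) k) ↔ _
        by_cases hk : k = κ m
        · subst hk
          rw [Function.update_self]
          exact ⟨fun _ => hκ m, fun _ => (hτ _ (hκ m)).1⟩
        · rw [Function.update_of_ne hk]
    refine ⟨Fin n × Bool, inferInstance, f, ?_, ?_, ?_⟩
    · rintro ⟨m, e⟩ ⟨m', e'⟩ hff
      have hmm : m = m' := by
        apply hinj
        intro k
        rw [← hfP (m, e) k, ← hfP (m', e') k, hff]
      subst hmm
      have hne : Function.update (b m) (κ m) (τ (b m (κ m))) ≠ b m := by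
        intro h
        have h2 := congrFun h (κ m)
        rw [Function.update_self] at h2
        exact (hτ _ (hκ m)).2 h2
      cases e <;> cases e'
      · rfl
      · exact absurd hff.symm hne
      · exact absurd hff hne
      · rfl
    · rintro ⟨m, e⟩
      cases e with
      | false => exact hb m
      | true => exact hM2 _ _ (hb m)
    · simp [mul_comm]

end Pool.Agent.H99.Sp
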